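import Pool.Agent.Y129.TB.Union

/-!
# Approximation of unions of images of complete intersections over all perfectoid fields

Let `K` be a perfectoid field of characteristic `0` and residue characteristic `p`, `E = K♭` its tilt, `C`
the completion of an algebraic closure of `K`, and `F = C♭` its tilt, which contains `E`. Let `π` be
the map from `ℙ^n_F` to `ℙ^n_C`, `π(y_0 : ... : y_n) = (y_0♯ : ... : y_n♯)`. The structure `Tilting p C F`
consists of the absolute values and the map `x ↦ x♯` from `F` to `C` (it is multiplicative, surjective
because `C` is algebraically closed, and preserves the absolute value), and of Fontaine's map `θ` from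
the Witt vectors `W(O_F)` to `O_C`, with `θ([x]) = x♯`, which is surjective. The structure `BaseField T K E`
says that `E` is perfect, that it contains an element of absolute value `|p|`, and that `θ` maps `W(O_E)`
onto `O_K`. These are well-known facts for every perfectoid field `K`, and nothing else about
perfectoid fields is used. (`K` is not assumed to be algebraically closed; for example `K` can be the
completion of `ℚ_p(p^{1/p^∞})` or of `ℚ_p(ζ_{p^∞})`. The case `K = C`, `E = F` is included.)

A closed subset of projective space over `E` is given by the set of the points over `F` of the cone
(`IsConeOver E Y`: `Y` is the zero set in `F^{n+1}` of an ideal of polynomials over `E`, and stable under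
the multiplication by scalars). Its dimension is at least `d` if any `d` forms (homogeneous polynomials
of positive degree) over `F` have a common zero on it (`DimGE`), and at most `d` if some `d + 1` forms
have no common zero on it (`DimLE`, and `DimLEOver K` for forms over `K`).

`Approximable T K E X d`: for all homogeneous polynomials `P 1, ..., P r` over `K` of degrees
`D 1, ..., D r` which vanish on `X`, and all `ε > 0`, there is a closed `Y` of dimension `d` in `ℙ^n_E`
(defined over `E = K♭`) such that `|P k (y♯)| ≤ ε ‖y‖ ^ D k` for all points `y` of `Y` over `F` and all `k`.
(If the `P k` generate the ideal of `X`, the subsets `|P k (x)| ≤ ε ‖x‖ ^ D k` of the adic space are a basis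
of the neighbourhoods of `X`, and the condition for `Y` says that `Y` is contained in the preimage under
`π` of this neighbourhood; it is enough to consider the points of `Y` with values in `F`, because the
preimage is a quasi-compact open subset of the adic space of `Y`.) So this is the statement of Q1
for `X`, if `d` is the dimension of `X`.

Theorem. Let `X` be the union of closed subsets `X_i = f_i(Z_i)` of `ℙ^n`, `i = 1, ..., N`, `N > 0`, where `Z_i`
is the set of the common zeros of `c_i` forms (the `h i j`) in `ℙ^{m_i}` over `K`, `m_i = d + c_i`, and `f_i` is
given by `n + 1` homogeneous polynomials over `K` of the same degree `e_i > 0` which have no common zero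
on `Z_i`. Suppose that the dimension of `X` is at most `d` (that is, the `Z_i` are set-theoretic
complete intersections of dimension `d`; the dimension of `Z_i` is that of `X_i` as `f_i` is finite on
`Z_i`). Then `X` is closed, defined over `K`, of dimension `d`, and Q1 holds for `X`.

For `N = 1` and `f` the identity this is the case of complete intersections, known by Scholze. For `K = ℂ_p` and `N = 1` the
theorem is contained in `ImagesOfCompleteIntersections` (starting point), where also products of
projective spaces are treated. The new point is that `K` is an arbitrary perfectoid field and that the
approximating varieties `Y` are defined over its tilt `K♭`, as Q1 requires. This is what is needed for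
the weight-monodromy conjecture, where `K` is the completion of `k(ϖ^{1/p^∞})` for a local field `k` and
the Galois group of `K` has to act on both sides.

Remarks (not part of the formal statement). Some `X` to which this applies: all images of a morphism
`ℙ^m → ℙ^n` over `K`, such as all smooth rational curves with a `K`-rational point, and Veronese
varieties and all their projections; all `X` which are isomorphic over `K` to a complete intersection of
dimension at least `3`, in every projective embedding defined over `K`; and all finite unions of
such `X` of the same dimension, for example disjoint unions of rational curves (a disconnected `X` of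
positive dimension is never a set-theoretic complete intersection).

Proof. The approximation lemma (`approx`): for a form `h` over `K` and `ε > 0` there is a form `g` over
`E` such that `|h(t♯)| ≤ ε` for all zeros `t` of `g` in the unit ball of `F^{m+1}`. Take `ϖ` in `E` with
`|ϖ| = |p|`; then `p / ϖ♯` is in `O_K`, hence `p = θ([ϖ] v)` for some `v` in `W(O_E)`. Lift the coefficients
of `h` to `W(O_E)`; this gives `x(t)` in `W(O_F)` with `θ(x(t)) = h(t♯)`. For `x = [x_0] + p x'` put
`s(x) = [x_0] + [ϖ] v x'`. Then `θ(s(x)) = θ(x)`, and if `x` is divisible by `[β]` and `|θ(x)| ≤ |γ|`,
`|ϖ β| ≤ |γ| ≤ |β|`, then `s(x)` is divisible by `[γ]`. So if `|θ(x)| > |p|^c`, then the first component of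
`s^c(x)` is not zero. The first component of `s^c(x(t))` is a polynomial over `E` in the `p^M`-th roots of
the coordinates of `t`, and its `p^M`-th power is the form `g`.

Let `N = 1`. Consider the `c + n + 1` forms `h_j(z)`, `y_i^e - f_i(z)` in the `m + n + 2` variables `z`, `y`, the
approximating forms `G` over `E`, and let `Y` be the set of the `(y_i^e)` for the common zeros
`(z, y)` of the forms `G`. By the Nullstellensatz over `C` (`small`) the coordinates `y` are not small
compared with `z` at the zeros of the forms `G`, and the `P k` are small on `Y`. Since there is no zero of
the forms `G` with `y = 0`, `Y` is closed and defined over `E` (`image_closed`: the ring of the cone over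
the zeros of `G` is finite over `E[y_0, ..., y_n]`, and homomorphisms to the algebraically closed
field `F` extend). By Krull's height theorem the dimension of `Y` is at least `d`, and it is at most `d`
because of the forms over `E` which approximate the `d + 1` forms without common zeros on `X`. For
`N > 1` take the union of the `Y_i`; the same `d + 1` forms over `E` have no common zeros on all `Y_i`.
-/

set_option autoImplicit false

namespace Pool.Agent.Results.MP_db3ab1_ag.AllPerfectoidFields

open MvPolynomial Pool.Agent.Y129.TA Pool.Agent.Y129.TB

/-- Q1 holds for a finite union `X` of images of set-theoretic complete intersections `Z_i` of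
dimension `d` in `ℙ^{m_i}`, `m_i = d + c_i`, defined over a perfectoid field `K`, under maps given by
homogeneous polynomials over `K` of the same degree `e_i` without common zeros on `Z_i`; the
approximating varieties are defined over `E = K♭`. -/
theorem result {p : ℕ} [Fact p.Prime] {C F K E : Type} [Field C] [Field F] [CharP F p] [Field K]
    [Field E] [Algebra K C] [Algebra E F] [IsAlgClosed C] [IsAlgClosed F] (T : Tilting p C F)
    (B : BaseField T K E) {N n d : ℕ} (hN : 0 < N) {c m e : Fin N → ℕ} (hm : ∀ i, m i = d + c i)
    (h : ∀ i, Fin (c i) → MvPolynomial (Fin (m i + 1)) K) (hh : ∀ i j, IsForm (h i j))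
    (f : ∀ i, Fin (n + 1) → MvPolynomial (Fin (m i + 1)) K) (he : ∀ i, 0 < e i)
    (hf : ∀ i j, (f i j).IsHomogeneous (e i)) (h0 : ∀ i, NoCommonZero C (h i) (f i))
    (hX : DimLEOver K (⋃ i, imageOver C (h i) (f i)) d) :
    IsConeOver K (⋃ i, imageOver C (h i) (f i)) ∧ DimGE (⋃ i, imageOver C (h i) (f i)) d ∧
      Approximable T.toTiltPair K E (⋃ i, imageOver C (h i) (f i)) d := by
  have hc : ∀ i, Fintype.card (Fin (c i)) + d < Fintype.card (Fin (m i + 1)) := fun i => by
    rw [Fintype.card_fin, Fintype.card_fin, hm i]
    omega
  exact ⟨cone_iUnion _ fun i => imageOver_cone (hh i) (hf i) (he i) (h0 i),
    dimGE_iUnion ⟨0, hN⟩ _ (imageOver_dimGE (hh _) (hf _) (he _) (h0 _) (hc _)),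
    approximable_iUnion T B hN h hh f he hf h0 hm hX⟩

end Pool.Agent.Results.MP_db3ab1_ag.AllPerfectoidFields
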